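import Pool.Agent.Helper13.Sof.Goals

/-! Packet HEISFIN -/

set_option autoImplicit false

namespace Pool.Agent.Helper31.Sof

open Pool.Agent.Helper13.Sof

theorem heisFinite : HeisFinite := by
  intro G _ p hp x y hx hy hzx hzy
  obtain ⟨z, hz⟩ : ∃ z, z = x * y * x⁻¹ * y⁻¹ := ⟨_, rfl⟩
  rw [← hz] at hzx hzy
  have hxy : x * y = z * (y * x) := by rw [hz]; group
  have h1 : ∀ a : ℕ, x ^ a * y = z ^ a * (y * x ^ a) := by
    intro a
    induction a with
    | zero => simp
    | succ a ih =>
      calc x ^ (a + 1) * y = x * (x ^ a * y) := by rw [pow_succ', mul_assoc]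
        _ = x * (z ^ a * (y * x ^ a)) := by rw [ih]
        _ = (x * z ^ a) * (y * x ^ a) := by rw [mul_assoc]
        _ = (z ^ a * x) * (y * x ^ a) := by rw [(hzx.pow_left a).eq]
        _ = z ^ a * ((x * y) * x ^ a) := by simp only [mul_assoc]
        _ = z ^ a * ((z * (y * x)) * x ^ a) := by rw [hxy]
        _ = z ^ (a + 1) * (y * x ^ (a + 1)) := by
          rw [pow_succ z, pow_succ' x]; simp only [mul_assoc]
  have hzp : z ^ p = 1 := by
    have h2 := h1 p
    rw [hx, one_mul, mul_one] at h2
    exact (mul_eq_right.1 h2.symm)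
  have hzinv : z ^ (p - 1) * z = 1 := by
    rw [← pow_succ, Nat.sub_add_cancel hp, hzp]
  obtain ⟨q, hq⟩ : ∃ q, q = z ^ (p - 1) := ⟨_, rfl⟩
  have hqx : Commute q x := by rw [hq]; exact hzx.pow_left _
  have hqy : Commute q y := by rw [hq]; exact hzy.pow_left _
  have hyx : y * x = x * y * q := by
    have h3 : q * (x * y) = y * x := by rw [hxy, ← mul_assoc, hq, hzinv, one_mul]
    rw [← h3, ← mul_assoc, hqx.eq, mul_assoc, hqy.eq, ← mul_assoc]
  have h4 : ∀ a : ℕ, y * x ^ a = x ^ a * y * q ^ a := by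
    intro a
    induction a with
    | zero => simp
    | succ a ih =>
      calc y * x ^ (a + 1) = (y * x ^ a) * x := by rw [pow_succ, mul_assoc]
        _ = x ^ a * y * q ^ a * x := by rw [ih]
        _ = x ^ a * y * (q ^ a * x) := by rw [mul_assoc]
        _ = x ^ a * y * (x * q ^ a) := by rw [(hqx.pow_left a).eq]
        _ = x ^ a * ((y * x) * q ^ a) := by simp only [mul_assoc]
        _ = x ^ a * ((x * y * q) * q ^ a) := by rw [hyx]
        _ = x ^ (a + 1) * y * q ^ (a + 1) := by
          rw [pow_succ x, pow_succ' q]; simp only [mul_assoc]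
  let f : ℕ × ℕ × ℕ → G := fun t => x ^ t.1 * y ^ t.2.1 * z ^ t.2.2
  have hWfin : (Set.range f).Finite := by
    have h5 : Set.range f ⊆ f '' (((Finset.range p) ×ˢ ((Finset.range p) ×ˢ (Finset.range p)) :
        Finset (ℕ × ℕ × ℕ)) : Set (ℕ × ℕ × ℕ)) := by
      rintro _ ⟨⟨a, b, c⟩, rfl⟩
      refine ⟨(a % p, b % p, c % p), ?_, ?_⟩
      · simp [Nat.mod_lt _ hp]
      · show x ^ (a % p) * y ^ (b % p) * z ^ (c % p) = x ^ a * y ^ b * z ^ c
        rw [← pow_eq_pow_mod a hx, ← pow_eq_pow_mod b hy, ← pow_eq_pow_mod c hzp]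
    exact (Set.Finite.image f (Finset.finite_toSet _)).subset h5
  have hmul : ∀ g ∈ Subgroup.closure ({x, y} : Set G), ∀ w ∈ Set.range f, g * w ∈ Set.range f := by
    intro g hg
    induction hg using Subgroup.closure_induction with
    | mem g hg =>
      rcases hg with rfl | hg
      · rintro _ ⟨⟨a, b, c⟩, rfl⟩
        refine ⟨(a + 1, b, c), ?_⟩
        show g ^ (a + 1) * y ^ b * z ^ c = g * (g ^ a * y ^ b * z ^ c)
        rw [pow_succ']; simp only [mul_assoc]
      · have hg' : g = y := hg
        subst hg'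
        rintro _ ⟨⟨a, b, c⟩, rfl⟩
        refine ⟨(a, b + 1, c + (p - 1) * a), ?_⟩
        show x ^ a * g ^ (b + 1) * z ^ (c + (p - 1) * a) = g * (x ^ a * g ^ b * z ^ c)
        have h6 : g * (x ^ a * g ^ b * z ^ c) = (g * x ^ a) * (g ^ b * z ^ c) := by
          simp only [mul_assoc]
        have h7 : Commute (q ^ a) (g ^ b * z ^ c) := by
          refine Commute.mul_right ((hqy.pow_left a).pow_right b) ?_
          rw [hq]
          exact (((Commute.refl z).pow_left (p - 1)).pow_left a).pow_right c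
        rw [h6, h4 a, mul_assoc (x ^ a * g), h7.eq, pow_succ', hq, ← pow_mul, pow_add]
        simp only [mul_assoc]
    | one => intro w hw; rwa [one_mul]
    | mul g h _ _ hg hh => intro w hw; rw [mul_assoc]; exact hg _ (hh _ hw)
    | inv g _ hg =>
      intro w hw
      have h8 : (fun w => g * w) '' (Set.range f) = Set.range f := by
        apply Set.Finite.eq_of_subset_of_encard_le (hWfin.image _)
        · rintro _ ⟨w, hw, rfl⟩
          exact hg w hw
        · exact (Function.Injective.encard_image (mul_right_injective g) (Set.range f)).ge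
      rw [← h8] at hw
      obtain ⟨w', hw', e⟩ := hw
      have : w = g * w' := e.symm
      rw [this, inv_mul_cancel_left]
      exact hw'
  refine hWfin.subset fun g hg => ?_
  have h9 := hmul g hg 1 ⟨(0, 0, 0), by simp [f]⟩
  rwa [mul_one] at h9

end Pool.Agent.Helper31.Sof
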